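import Mathlib

/-! Definitions used in the statement. -/

namespace Pool.Agent.MP_a61dd1_gt

open scoped Manifold ContDiff Topology.Homotopy

/-- The unit sphere `S^n` in euclidean `(n+1)`-space, with its standard smooth structure. -/
abbrev Sphere (n : ℕ) : Type := Metric.sphere (0 : EuclideanSpace ℝ (Fin (n + 1))) 1

/-- `T` is a smooth embedded submanifold of the manifold `M` (modelled on `E`) with normal space
`F`: near each of its points it is the zero set of a smooth map to `F` whose differential at the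
point is onto. -/
def IsSubmanifold (E F : Type) [NormedAddCommGroup E] [NormedSpace ℝ E] [NormedAddCommGroup F]
    [NormedSpace ℝ F] {M : Type} [TopologicalSpace M] [ChartedSpace E M] (T : Set M) : Prop :=
  ∀ p ∈ T, ∃ (U : Set M) (f : M → F), IsOpen U ∧ p ∈ U ∧ ContMDiffOn 𝓘(ℝ, E) 𝓘(ℝ, F) ∞ f U ∧
    Function.Surjective (mfderiv 𝓘(ℝ, E) 𝓘(ℝ, F) f p) ∧ T ∩ U = U ∩ f ⁻¹' {0}

/-- A link of `(n-2)`-tori in `S^n`: pairwise disjoint smooth embedded submanifolds of
codimension two, each homeomorphic to `(S^1)^(n-2)`. -/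
def IsTorusLink (n k : ℕ) (T : Fin k → Set (Sphere n)) : Prop :=
  (∀ j, IsSubmanifold (EuclideanSpace ℝ (Fin n)) (EuclideanSpace ℝ (Fin 2)) (T j) ∧
    Nonempty (T j ≃ₜ (Fin (n - 2) → Circle))) ∧
    ∀ i j, i ≠ j → Disjoint (T i) (T j)

/-- Path connected, and all homotopy groups `π_i`, `i ≥ 2`, are trivial at every base point. -/
def IsAspherical (X : Type) [TopologicalSpace X] : Prop :=
  PathConnectedSpace X ∧ ∀ (x : X) (i : ℕ), 2 ≤ i → Subsingleton (HomotopyGroup.Pi i X x)

end Pool.Agent.MP_a61dd1_gt
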