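import Pool.Agent.MP_a61dd1_gt.Model

/-! `T1 i` and `T2 i` are 3-tori.

Hints.  General lemma: for nested rectangles (`a + 4 ≤ a' ≤ b'`, `b' + 4 ≤ b`, `0 ≤ c'`, `c' + 4 ≤ c`; true for
`T1`: `(-21,2,9) ⊇ (-4,-2,0)` and `T2`: `(-32,6,11) ⊇ (-19,-9,7)`) the compact surface
`Z = {(s,t,h) | h^2 + rect a b c s t + bump (rect a' b' c' s t) = 1}` is homeomorphic to `Circle × Circle`.
Let `s0 = (a'+b')/2`, `A = (b'-a')/2 + 2`, `B = c' + 2` and the gauge `N (s,t) = max (|s - s0| / A) (|t| / B)`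
(positively homogeneous in `(s - s0, t)`).  With `ψ = rect_out + bump rect_in`:  `N ≥ 1 → bump rect_in = 0`
(`two_le_rect`), `N ≤ 1 → rect_out = 0` (`rect_eq_zero`), `ψ (s0,0) = 2`.  Along rays from `(s0,0)` both `rect`s are
monotone, strictly once positive (`rp_lt`).  Map `(s,t,h) ↦ (dir (s - s0, t), dir (N - 1, h))`, where `dir` is the
direction of a nonzero vector as a point of `Circle`; both vectors are nonzero on `Z`.  For fixed directions `e`,
`(cos θ, sin θ)` the points are `h = k sin θ`, `(s - s0,t) = (1 + k cos θ) e / N e`, `k > 0`, and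
`k ↦ h^2 + ψ` is monotone; it takes the value 1 exactly once (strictness from `h^2` if `sin θ ≠ 0`, otherwise from
`rect = 1`, using `rp_eq_one`; existence by the intermediate value theorem, value `0` at `k = 0`, use
`max (1 + k cos θ) 0` and a large `k`).  Then `Continuous.homeoOfEquivCompactToT2`.
Finally `Sph ∩ T1 i ≃ Circle × Z` by `w ↦ (dir (w i), (x, u, v * kap x / 8))` and
`Sph ∩ T2 i ≃ Circle × Z` by `w ↦ (dir (w i), (x - shr u, u, y / 3))`, where the radius of `w i` is determined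
by `Sph_sum` and is positive by `T1_small`, `T2_small` (again compact to T2, or write the inverse).
-/

namespace Pool.Agent.MP_a61dd1_gt

open Set

/-- direction of a vector -/
noncomputable def homt_dir (z : ℂ) : Circle := Circle.exp (Complex.arg z)

lemma homt_dir_eq (z : ℂ) : (‖z‖ : ℂ) * (homt_dir z : ℂ) = z := by
  rw [homt_dir, Circle.coe_exp]; exact Complex.norm_mul_exp_arg_mul_I z

lemma homt_dir_cont {X : Type} [TopologicalSpace X] {f : X → ℂ} (hf : Continuous f)
    (h0 : ∀ x, f x ≠ 0) : Continuous fun x => homt_dir (f x) := by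
  refine continuous_induced_rng.2 ?_
  have e : (fun x => (homt_dir (f x) : ℂ)) = fun x => f x / (‖f x‖ : ℂ) := by
    funext x
    have h1 : (‖f x‖ : ℂ) ≠ 0 := by simpa using h0 x
    rw [eq_div_iff h1, mul_comm, homt_dir_eq]
  change Continuous fun x => (homt_dir (f x) : ℂ)
  rw [e]
  exact hf.div (Complex.continuous_ofReal.comp hf.norm) fun x => by simpa using h0 x

lemma homt_dir_smul {r : ℝ} (hr : 0 < r) (e : Circle) : homt_dir (r * (e : ℂ)) = e := by
  rw [homt_dir, Complex.arg_real_mul _ hr, Circle.exp_arg]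

lemma homt_dir_inj {z z' : ℂ} (h0 : z ≠ 0) (h0' : z' ≠ 0) (h : homt_dir z = homt_dir z') :
    ∃ r : ℝ, 0 < r ∧ z' = r * z := by
  have h1 : 0 < ‖z‖ := norm_pos_iff.2 h0
  have h2 : 0 < ‖z'‖ := norm_pos_iff.2 h0'
  refine ⟨‖z'‖ / ‖z‖, by positivity, ?_⟩
  have h3 : (‖z‖ : ℂ) ≠ 0 := by simpa using h0
  calc z' = (‖z'‖ : ℂ) * (homt_dir z : ℂ) := by rw [h, homt_dir_eq]
    _ = ((‖z'‖ / ‖z‖ : ℝ) : ℂ) * ((‖z‖ : ℂ) * (homt_dir z : ℂ)) := by push_cast; field_simp
    _ = _ := by rw [homt_dir_eq]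

lemma homt_rp_ray {α l μ ν : ℝ} (hα : α ≤ 0) (hμ : 0 ≤ μ) (h : μ < ν) :
    rp (α + μ * l) ≤ rp (α + ν * l) ∧ (0 < rp (α + ν * l) → rp (α + μ * l) < rp (α + ν * l)) := by
  rcases le_or_gt l 0 with hl | hl
  · have h1 : rp (α + μ * l) = 0 := rp_of_nonpos (by nlinarith)
    rw [h1]
    exact ⟨rp_nonneg _, id⟩
  · have h1 : α + μ * l < α + ν * l := by nlinarith
    refine ⟨rp_mono h1.le, fun h2 => rp_lt ?_ h1⟩
    by_contra h3
    rw [rp_of_nonpos (not_lt.1 h3)] at h2
    exact lt_irrefl _ h2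

lemma homt_rect_ray {a b c s x y μ ν : ℝ} (h1 : a ≤ s) (h2 : s ≤ b) (h3 : 0 ≤ c) (hμ : 0 ≤ μ)
    (h : μ < ν) : rect a b c (s + μ * x) (μ * y) ≤ rect a b c (s + ν * x) (ν * y) ∧
      (0 < rect a b c (s + ν * x) (ν * y) →
        rect a b c (s + μ * x) (μ * y) < rect a b c (s + ν * x) (ν * y)) := by
  have e : ∀ r : ℝ, rect a b c (s + r * x) (r * y) = rp ((a - s) + r * (-x)) + rp ((s - b) + r * x) +
      rp (-c + r * y) + rp (-c + r * (-y)) := by
    intro r
    unfold rect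
    congr 1
    · congr 1
      · congr 1 <;> congr 1 <;> ring
      · congr 1; ring
    · congr 1; ring
  rw [e, e]
  have a1 := homt_rp_ray (α := a - s) (l := -x) (by linarith) hμ h
  have a2 := homt_rp_ray (α := s - b) (l := x) (by linarith) hμ h
  have a3 := homt_rp_ray (α := -c) (l := y) (by linarith) hμ h
  have a4 := homt_rp_ray (α := -c) (l := -y) (by linarith) hμ h
  refine ⟨by linarith [a1.1, a2.1, a3.1, a4.1], fun hp => ?_⟩
  by_contra hn
  have b1 : ¬ 0 < rp ((a - s) + ν * (-x)) := fun h => by linarith [a1.2 h, a2.1, a3.1, a4.1]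
  have b2 : ¬ 0 < rp ((s - b) + ν * x) := fun h => by linarith [a1.1, a2.2 h, a3.1, a4.1]
  have b3 : ¬ 0 < rp (-c + ν * y) := fun h => by linarith [a1.1, a2.1, a3.2 h, a4.1]
  have b4 : ¬ 0 < rp (-c + ν * (-y)) := fun h => by linarith [a1.1, a2.1, a3.1, a4.2 h]
  linarith

/-- the abstract radial situation -/
structure homt_Rad (N Ψ : ℂ → ℝ) : Prop where
  cN : Continuous N
  cΨ : Continuous Ψ
  hom : ∀ (r : ℝ) (p : ℂ), 0 ≤ r → N (r * p) = r * N p
  pos : ∀ p, p ≠ 0 → 0 < N p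
  nn : ∀ p, 0 ≤ Ψ p
  zero : Ψ 0 = 2
  one : ∀ p, N p = 1 → Ψ p = 0
  out : ∀ (p : ℂ) (μ : ℝ), 1 ≤ N p → 1 < μ → Ψ p ≤ Ψ (μ * p) ∧ (0 < Ψ (μ * p) → Ψ p < Ψ (μ * p))
  inn : ∀ (p : ℂ) (μ : ℝ), N p ≤ 1 → 0 ≤ μ → μ < 1 → Ψ p ≤ Ψ (μ * p) ∧ (Ψ p = 1 → 1 < Ψ (μ * p))
  big : ∃ K : ℝ, 0 ≤ K ∧ ∀ p, K ≤ N p → 1 ≤ Ψ p

namespace homt_Rad

variable {N Ψ : ℂ → ℝ} (H : homt_Rad N Ψ)
include H

lemma ne1 {p : ℂ} {h : ℝ} (hz : h ^ 2 + Ψ p = 1) : p ≠ 0 := by
  rintro rfl
  rw [H.zero] at hz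
  nlinarith [sq_nonneg h]

lemma ne2 {p : ℂ} {h : ℝ} (hz : h ^ 2 + Ψ p = 1) : ((N p - 1 : ℝ) : ℂ) + h * Complex.I ≠ 0 := by
  intro h0
  have h1 := congrArg Complex.re h0
  have h2 := congrArg Complex.im h0
  simp at h1 h2
  rw [H.one p (by linarith), h2] at hz
  norm_num at hz

lemma key {p : ℂ} {h μ l : ℝ} (hz : h ^ 2 + Ψ p = 1) (hz' : (l * h) ^ 2 + Ψ (μ * p) = 1)
    (hμ : 0 < μ) (hl : 1 < l) (hN : N (μ * p) - 1 = l * (N p - 1)) : False := by
  have hρ := H.pos p (H.ne1 hz)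
  rw [H.hom μ p hμ.le] at hN
  have hl2 : 0 < l ^ 2 - 1 := by nlinarith
  have a1 : h ^ 2 ≤ (l * h) ^ 2 := by nlinarith [sq_nonneg h]
  have a2 : h ≠ 0 → h ^ 2 < (l * h) ^ 2 := fun h0 => by
    have : 0 < h ^ 2 := by positivity
    nlinarith
  rcases lt_trichotomy (N p) 1 with h1 | h1 | h1
  · have hμ1 : μ < 1 := by nlinarith
    have b := H.inn p μ h1.le hμ.le hμ1
    by_cases h0 : h = 0
    · have := b.2 (by rw [h0] at hz; linarith)
      nlinarith [sq_nonneg (l * h)]
    · linarith [a2 h0, b.1]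
  · have hμ1 : μ = 1 := by rw [h1] at hN; linarith
    have h0 : h ≠ 0 := by
      rintro rfl
      rw [H.one p h1] at hz
      norm_num at hz
    rw [hμ1] at hz'
    simp only [Complex.ofReal_one, one_mul] at hz'
    linarith [a2 h0]
  · have hμ1 : 1 < μ := by nlinarith
    have b := H.out p μ h1.le hμ1
    rcases (H.nn (μ * p)).eq_or_lt with h2 | h2
    · have h0 : h ≠ 0 := by
        rintro rfl
        rw [← h2] at hz'
        norm_num at hz'
      linarith [a2 h0, b.1]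
    · linarith [b.2 h2]

lemma inj {p p' : ℂ} {h h' : ℝ} (hz : h ^ 2 + Ψ p = 1) (hz' : h' ^ 2 + Ψ p' = 1)
    (h1 : homt_dir p = homt_dir p')
    (h2 : homt_dir (((N p - 1 : ℝ) : ℂ) + h * Complex.I) =
      homt_dir (((N p' - 1 : ℝ) : ℂ) + h' * Complex.I)) : p = p' ∧ h = h' := by
  obtain ⟨μ, hμ, rfl⟩ := homt_dir_inj (H.ne1 hz) (H.ne1 hz') h1
  obtain ⟨l, hl, e⟩ := homt_dir_inj (H.ne2 hz) (H.ne2 hz') h2
  have e1 : N (μ * p) - 1 = l * (N p - 1) := by simpa using congrArg Complex.re e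
  have e2 : h' = l * h := by simpa using congrArg Complex.im e
  subst e2
  rcases lt_trichotomy l 1 with h3 | h3 | h3
  · exfalso
    have f1 : ((μ⁻¹ : ℝ) : ℂ) * (μ * p) = p := by
      have : (μ : ℂ) ≠ 0 := by exact_mod_cast hμ.ne'
      push_cast; field_simp
    refine H.key (l := l⁻¹) (μ := μ⁻¹) hz' ?_ (by positivity) ((one_lt_inv₀ hl).2 h3) ?_
    · rw [f1, ← mul_assoc, inv_mul_cancel₀ hl.ne', one_mul]; exact hz
    · rw [f1, e1, ← mul_assoc, inv_mul_cancel₀ hl.ne', one_mul]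
  · have hρ := H.pos p (H.ne1 hz)
    rw [h3, H.hom μ p hμ.le] at e1
    have : μ = 1 := by
      have : (μ - 1) * N p = 0 := by linarith
      rcases mul_eq_zero.1 this with h | h <;> linarith
    rw [this, h3]
    simp
  · exact (H.key hz hz' hμ h3 e1).elim

lemma surj (e1 e2 : Circle) : ∃ (p : ℂ) (h : ℝ), h ^ 2 + Ψ p = 1 ∧ homt_dir p = e1 ∧
    homt_dir (((N p - 1 : ℝ) : ℂ) + h * Complex.I) = e2 := by
  have hn := H.pos e1 e1.coe_ne_zero
  set u : ℂ := ((N e1)⁻¹ : ℝ) * (e1 : ℂ) with hu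
  have hNu : N u = 1 := by rw [hu, H.hom _ _ (by positivity), inv_mul_cancel₀ hn.ne']
  set c := (e2 : ℂ).re with hc
  set σ := (e2 : ℂ).im with hσ
  have hcs : c ^ 2 + σ ^ 2 = 1 := by
    have := e2.normSq_coe
    rw [Complex.normSq_apply] at this
    linarith
  set F : ℝ → ℝ := fun k => (k * σ) ^ 2 + Ψ ((max (1 + k * c) 0 : ℝ) * u) with hF
  have hFc : Continuous F := by
    have := H.cΨ
    simp only [hF]
    fun_prop
  have hF0 : F 0 = 0 := by simp [hF, H.one u hNu]
  have hK : ∃ K, 0 ≤ K ∧ 1 ≤ F K := by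
    by_cases h0 : σ = 0
    · have : c = 1 ∨ c = -1 := by
        rw [h0] at hcs
        exact sq_eq_one_iff.1 (by linarith)
      rcases this with h1 | h1
      · obtain ⟨K, hK0, hK⟩ := H.big
        refine ⟨K, hK0, ?_⟩
        have := hK (((max (1 + K * c) 0 : ℝ) : ℂ) * u) (by
          rw [H.hom _ _ (le_max_right _ _), hNu, h1]
          linarith [le_max_left (1 + K * 1) 0])
        simp only [hF]
        nlinarith [sq_nonneg (K * σ)]
      · refine ⟨1, zero_le_one, ?_⟩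
        simp [hF, h0, h1, H.zero]
    · refine ⟨|σ|⁻¹, by positivity, ?_⟩
      have e : (|σ|⁻¹ * σ) ^ 2 = 1 := by
        rw [mul_pow, inv_pow, sq_abs]
        field_simp
      simp only [hF]
      linarith [H.nn (((max (1 + |σ|⁻¹ * c) 0 : ℝ) : ℂ) * u)]
  obtain ⟨K, hK0, hK1⟩ := hK
  obtain ⟨k, hk, hFk⟩ := intermediate_value_Icc hK0 hFc.continuousOn
    (show (1 : ℝ) ∈ Icc (F 0) (F K) from ⟨by rw [hF0]; exact zero_le_one, hK1⟩)
  have hk0 : 0 < k := by
    refine lt_of_le_of_ne hk.1 ?_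
    rintro rfl
    rw [hF0] at hFk
    norm_num at hFk
  have hρ : 0 < 1 + k * c := by
    by_contra h
    simp only [hF, max_eq_right (not_lt.1 h), Complex.ofReal_zero, zero_mul, H.zero] at hFk
    nlinarith [sq_nonneg (k * σ)]
  simp only [hF, max_eq_left hρ.le] at hFk
  refine ⟨_, _, hFk, ?_, ?_⟩
  · rw [hu, ← mul_assoc, ← Complex.ofReal_mul, homt_dir_smul (by positivity)]
  · rw [H.hom _ _ hρ.le, hNu, ← homt_dir_smul hk0 e2]
    congr 1
    apply Complex.ext <;> simp [hc, hσ]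

end homt_Rad

lemma homt_rad {a b c a' b' c' : ℝ} (h1 : a + 4 ≤ a') (h2 : a' ≤ b') (h3 : b' + 4 ≤ b)
    (h4 : 0 ≤ c') (h5 : c' + 4 ≤ c) :
    homt_Rad (fun p => max (|p.re| / ((b' - a') / 2 + 2)) (|p.im| / (c' + 2)))
      (fun p => rect a b c ((a' + b') / 2 + p.re) p.im +
        bump (rect a' b' c' ((a' + b') / 2 + p.re) p.im)) := by
  have hA : 0 < (b' - a') / 2 + 2 := by linarith
  have hB : 0 < c' + 2 := by linarith
  have hin : ∀ p : ℂ, 1 ≤ max (|p.re| / ((b' - a') / 2 + 2)) (|p.im| / (c' + 2)) →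
      bump (rect a' b' c' ((a' + b') / 2 + p.re) p.im) = 0 := by
    intro p hp
    refine bump_of_two_le (two_le_rect ?_)
    rcases le_max_iff.1 hp with h | h
    · rw [le_div_iff₀ hA, le_abs] at h
      rcases h with h | h
      · right; left; linarith
      · left; linarith
    · rw [le_div_iff₀ hB, le_abs] at h
      rcases h with h | h
      · right; right; right; linarith
      · right; right; left; linarith
  have hout : ∀ p : ℂ, max (|p.re| / ((b' - a') / 2 + 2)) (|p.im| / (c' + 2)) ≤ 1 →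
      rect a b c ((a' + b') / 2 + p.re) p.im = 0 := by
    intro p hp
    rw [max_le_iff, div_le_iff₀ hA, div_le_iff₀ hB, abs_le, abs_le] at hp
    exact rect_eq_zero (by linarith [hp.1.1]) (by linarith [hp.1.2]) (by linarith [hp.2.1])
      (by linarith [hp.2.2])
  have hom : ∀ (r : ℝ) (p : ℂ), 0 ≤ r →
      max (|(r * p).re| / ((b' - a') / 2 + 2)) (|(r * p).im| / (c' + 2)) =
        r * max (|p.re| / ((b' - a') / 2 + 2)) (|p.im| / (c' + 2)) := by
    intro r p hr
    rw [mul_max_of_nonneg _ _ hr, Complex.re_ofReal_mul, Complex.im_ofReal_mul, abs_mul, abs_mul,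
      abs_of_nonneg hr, mul_div_assoc, mul_div_assoc]
  refine ⟨by fun_prop, by unfold rect bump; fun_prop, hom, fun p hp => ?_,
    fun p => add_nonneg (rect_nonneg _ _ _ _ _) (bump_nonneg _), ?_,
    fun p hp => by rw [hin p hp.ge, hout p hp.le, add_zero], fun p μ hp hμ => ?_,
    fun p μ hp hμ0 hμ => ?_, ⟨b - a + c + 2, by linarith, fun p hp => ?_⟩⟩
  · by_contra h
    rw [not_lt, max_le_iff, div_le_iff₀ hA, div_le_iff₀ hB, zero_mul, zero_mul, abs_nonpos_iff,
      abs_nonpos_iff] at h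
    exact hp (Complex.ext h.1 h.2)
  · simp only [Complex.zero_re, Complex.zero_im, add_zero]
    rw [rect_eq_zero (by linarith) (by linarith) (by linarith) (by linarith),
      rect_eq_zero (by linarith) (by linarith) (by linarith) (by linarith), bump,
      rp_of_one_le (by norm_num)]
    norm_num
  · rw [hin p hp, hin (μ * p) (by rw [hom μ p (by linarith)]; nlinarith), add_zero, add_zero,
      Complex.re_ofReal_mul, Complex.im_ofReal_mul]
    have := homt_rect_ray (a := a) (b := b) (c := c) (s := (a' + b') / 2) (x := p.re) (y := p.im)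
      (by linarith) (by linarith) (by linarith) zero_le_one hμ
    rwa [one_mul, one_mul] at this
  · have hN0 : 0 ≤ max (|p.re| / ((b' - a') / 2 + 2)) (|p.im| / (c' + 2)) :=
      le_max_of_le_left (by positivity)
    rw [hout p hp, hout (μ * p) (by rw [hom μ p hμ0]; nlinarith), zero_add, zero_add,
      Complex.re_ofReal_mul, Complex.im_ofReal_mul]
    have := homt_rect_ray (a := a') (b := b') (c := c') (s := (a' + b') / 2) (x := p.re) (y := p.im)
      (by linarith) (by linarith) h4 hμ0 hμ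
    rw [one_mul, one_mul] at this
    refine ⟨rp_mono (by linarith [this.1]), fun h => ?_⟩
    have h6 := rp_eq_one.1 h
    have h7 := this.2 (by linarith)
    rw [bump, rp_of_one_le (by linarith)]
    linarith
  · have : 2 ≤ rect a b c ((a' + b') / 2 + p.re) p.im := by
      refine two_le_rect ?_
      rcases le_max_iff.1 hp with h | h
      · rw [le_div_iff₀ hA, le_abs] at h
        have : b - a + c + 2 ≤ (b - a + c + 2) * ((b' - a') / 2 + 2) := by nlinarith
        rcases h with h | h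
        · right; left; linarith
        · left; linarith
      · rw [le_div_iff₀ hB, le_abs] at h
        have : b - a + c + 2 ≤ (b - a + c + 2) * (c' + 2) := by nlinarith
        rcases h with h | h
        · right; right; right; linarith
        · right; right; left; linarith
    linarith [bump_nonneg (rect a' b' c' ((a' + b') / 2 + p.re) p.im)]

lemma homt_fin (i j : Fin 3) : (j = i ∨ j = i + 1 ∨ j = i + 2) ∧ i + 1 ≠ i ∧ i + 2 ≠ i ∧
    i + 2 ≠ i + 1 := by
  revert i j; decide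

lemma homt_sph {w : W} (i : Fin 3) (h : sq2 (w i) + sq2 (w (i + 1)) + sq2 (w (i + 2)) = 4096) :
    w ∈ Sph := by
  change sq2 (w 0) + sq2 (w 1) + sq2 (w 2) = 4096
  fin_cases i <;> simp at h <;> linarith

lemma homt_compact : IsCompact Sph := by
  refine Metric.isCompact_of_isClosed_isBounded
    (isClosed_eq (by unfold sq2; fun_prop) continuous_const) ?_
  refine (Metric.isBounded_closedBall (x := (0 : W)) (r := 64)).subset fun w hw => ?_
  rw [mem_closedBall_zero_iff, pi_norm_le_iff_of_nonneg (by norm_num)]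
  intro j
  have h := Sph_sum hw j
  unfold sq2 at h
  rw [Prod.norm_def, max_le_iff, Real.norm_eq_abs, Real.norm_eq_abs]
  constructor <;> refine abs_le_of_sq_le_sq (b := 64) ?_ (by norm_num) <;>
    nlinarith [sq_nonneg (w j).1, sq_nonneg (w j).2, sq_nonneg (w (j + 1)).1,
      sq_nonneg (w (j + 1)).2, sq_nonneg (w (j + 2)).1, sq_nonneg (w (j + 2)).2]

lemma homt_normSq (z : ℝ × ℝ) : ‖(z.1 : ℂ) + z.2 * Complex.I‖ ^ 2 = sq2 z := by
  rw [Complex.sq_norm, Complex.normSq_add_mul_I, sq2]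

theorem homt_main {N Ψ : ℂ → ℝ} (H : homt_Rad N Ψ) (i : Fin 3) {T : Set W} (hT : IsClosed T)
    (P : W → ℂ) (h : W → ℝ) (cP : Continuous P) (ch : Continuous h)
    (small : ∀ w ∈ T, sq2 (w (i + 1)) ≤ 1100 ∧ sq2 (w (i + 2)) ≤ 200)
    (mem : ∀ w ∈ T, h w ^ 2 + Ψ (P w) = 1)
    (inj : ∀ w ∈ T, ∀ w' ∈ T, P w = P w' → h w = h w' →
      w (i + 1) = w' (i + 1) ∧ w (i + 2) = w' (i + 2))
    (sur : ∀ (p : ℂ) (t : ℝ), t ^ 2 + Ψ p = 1 → ∃ z1 z2 : ℝ × ℝ, ∀ w : W, w (i + 1) = z1 →
      w (i + 2) = z2 → w ∈ T ∧ P w = p ∧ h w = t) :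
    Nonempty (↥(Sph ∩ T) ≃ₜ (Fin 3 → Circle)) := by
  have : CompactSpace ↥(Sph ∩ T) := isCompact_iff_compactSpace.1 (homt_compact.inter_right hT)
  let Q : W → ℂ := fun w => ((w i).1 : ℂ) + (w i).2 * Complex.I
  have hQ : ∀ w : ↥(Sph ∩ T), Q w.1 ≠ 0 := by
    intro w h0
    have a1 := homt_normSq (w.1 i)
    have a2 := Sph_sum w.2.1 i
    have a3 := small w.1 w.2.2
    change ‖Q w.1‖ ^ 2 = _ at a1
    rw [h0, norm_zero] at a1
    linarith [a3.1, a3.2]
  let Φ : ↥(Sph ∩ T) → (Fin 3 → Circle) := fun w =>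
    ![homt_dir (Q w.1), homt_dir (P w.1),
      homt_dir (((N (P w.1) - 1 : ℝ) : ℂ) + h w.1 * Complex.I)]
  have hc : Continuous Φ := by
    have := H.cN
    refine continuous_pi fun j => ?_
    fin_cases j
    · have cQ : Continuous Q := by simp only [Q]; fun_prop
      exact homt_dir_cont (f := fun w : ↥(Sph ∩ T) => Q w.1) (cQ.comp continuous_subtype_val) hQ
    · exact homt_dir_cont (f := fun w : ↥(Sph ∩ T) => P w.1) (by fun_prop)
        fun w => H.ne1 (mem w.1 w.2.2)
    · exact homt_dir_cont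
        (f := fun w : ↥(Sph ∩ T) => ((N (P w.1) - 1 : ℝ) : ℂ) + h w.1 * Complex.I) (by fun_prop)
        fun w => H.ne2 (mem w.1 w.2.2)
  have hi : Function.Injective Φ := by
    intro w w' e
    obtain ⟨e1, e2⟩ := H.inj (mem w.1 w.2.2) (mem w'.1 w'.2.2) (congrFun e 1) (congrFun e 2)
    obtain ⟨f1, f2⟩ := inj w.1 w.2.2 w'.1 w'.2.2 e1 e2
    have g1 : homt_dir (Q w.1) = homt_dir (Q w'.1) := congrFun e 0
    have g2 : ‖Q w.1‖ = ‖Q w'.1‖ := by
      refine (pow_left_inj₀ (norm_nonneg _) (norm_nonneg _) two_ne_zero).1 ?_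
      have a1 := Sph_sum w.2.1 i
      have a2 := Sph_sum w'.2.1 i
      rw [f1, f2] at a1
      simp only [Q]
      rw [homt_normSq, homt_normSq]
      linarith
    have g3 : Q w.1 = Q w'.1 := by rw [← homt_dir_eq (Q w.1), g1, g2, homt_dir_eq]
    have g4 : w.1 i = w'.1 i :=
      Prod.ext (by simpa [Q] using congrArg Complex.re g3) (by simpa [Q] using congrArg Complex.im g3)
    refine Subtype.ext (funext fun j => ?_)
    rcases (homt_fin i j).1 with rfl | rfl | rfl
    · exact g4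
    · exact f1
    · exact f2
  have hs : Function.Surjective Φ := by
    intro e
    obtain ⟨p, t, h1, h2, h3⟩ := H.surj (e 1) (e 2)
    obtain ⟨z1, z2, hz⟩ := sur p t h1
    obtain ⟨_, n1, n2, n3⟩ := homt_fin i i
    let r : ℝ := √(4096 - sq2 z1 - sq2 z2)
    let w : W := fun j => if j = i then (r * (e 0 : ℂ).re, r * (e 0 : ℂ).im)
      else if j = i + 1 then z1 else z2
    have w0 : w i = (r * (e 0 : ℂ).re, r * (e 0 : ℂ).im) := by simp [w]
    have w1 : w (i + 1) = z1 := by simp only [w, if_neg n1, if_true]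
    have w2 : w (i + 2) = z2 := by simp only [w, if_neg n2, if_neg n3]
    obtain ⟨k1, k2, k3⟩ := hz w w1 w2
    have hsm := small w k1
    rw [w1, w2] at hsm
    have hpos : 0 < 4096 - sq2 z1 - sq2 z2 := by linarith [hsm.1, hsm.2]
    have hr : 0 < r := Real.sqrt_pos.2 hpos
    have hr2 : r ^ 2 = 4096 - sq2 z1 - sq2 z2 := Real.sq_sqrt hpos.le
    have hcs : (e 0 : ℂ).re ^ 2 + (e 0 : ℂ).im ^ 2 = 1 := by
      have := (e 0).normSq_coe
      rw [Complex.normSq_apply] at this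
      linarith
    have hw : w ∈ Sph := by
      refine homt_sph i ?_
      rw [w0, w1, w2]
      have : sq2 (r * (e 0 : ℂ).re, r * (e 0 : ℂ).im) = r ^ 2 := by
        simp only [sq2]
        linear_combination r ^ 2 * hcs
      linarith
    refine ⟨⟨w, hw, k1⟩, funext fun j => ?_⟩
    fin_cases j
    · change homt_dir (Q w) = e 0
      rw [← homt_dir_smul hr (e 0)]
      congr 1
      simp only [Q, w0]
      apply Complex.ext <;> simp
    · change homt_dir (P w) = e 1
      rw [k2, h2]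
    · change homt_dir (((N (P w) - 1 : ℝ) : ℂ) + h w * Complex.I) = e 2
      rw [k2, k3, h3]
  exact ⟨Continuous.homeoOfEquivCompactToT2 (f := Equiv.ofBijective Φ ⟨hi, hs⟩) hc⟩

lemma homt_cst : Continuous Real.smoothTransition :=
  (Real.smoothTransition.contDiff (n := 0)).continuous

theorem homeo_T1 (i : Fin 3) : Nonempty (↥(Sph ∩ T1 i) ≃ₜ (Fin 3 → Circle)) := by
  have H := homt_rad (a := -21) (b := 2) (c := 9) (a' := -4) (b' := -2) (c' := 0) (by norm_num)
    (by norm_num) (by norm_num) (by norm_num) (by norm_num)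
  have hc := homt_cst
  refine homt_main H i ?_ (fun w => (((w (i + 1)).1 + 3 : ℝ) : ℂ) + (w (i + 2)).1 * Complex.I)
    (fun w => (w (i + 2)).2 * kap (w (i + 1)).1 / 8) (by fun_prop) (by unfold kap; fun_prop)
    (fun w hw => T1_small hw) (fun w hw => ?_) (fun w hw w' hw' e1 e2 => ?_) (fun p t hp => ?_)
  · exact (isClosed_eq (by fun_prop) continuous_const).inter
      (isClosed_eq (by unfold f1 kap rect bump; fun_prop) continuous_const)
  · have h2 := hw.2
    unfold f1 at h2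
    have e : ((-4 : ℝ) + -2) / 2 + ((w (i + 1)).1 + 3) = (w (i + 1)).1 := by ring
    simp only [Complex.add_re, Complex.add_im, Complex.ofReal_re, Complex.ofReal_im, Complex.mul_re,
      Complex.mul_im, Complex.I_re, Complex.I_im, mul_zero, mul_one, sub_zero, add_zero, zero_add, e]
    linarith
  · have a1 : (w (i + 1)).1 = (w' (i + 1)).1 := by simpa using congrArg Complex.re e1
    have a2 : (w (i + 2)).1 = (w' (i + 2)).1 := by simpa using congrArg Complex.im e1
    have a3 := kap_ge (w' (i + 1)).1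
    rw [a1] at e2
    refine ⟨Prod.ext a1 (hw.1.trans hw'.1.symm), Prod.ext a2 ?_⟩
    exact mul_right_cancel₀ (b := kap (w' (i + 1)).1) (by linarith) (by linarith)
  · have a3 := kap_ge (p.re - 3)
    have a4 : kap (p.re - 3) ≠ 0 := by linarith
    refine ⟨(p.re - 3, 0), (p.im, 8 * t / kap (p.re - 3)), fun w w1 w2 => ⟨⟨by rw [w1], ?_⟩, ?_, ?_⟩⟩
    · rw [w1, w2]
      unfold f1
      have e : ((-4 : ℝ) + -2) / 2 + p.re = p.re - 3 := by ring
      simp only [e] at hp
      rw [div_mul_cancel₀ _ a4]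
      linarith
    · rw [w1, w2]
      apply Complex.ext <;> simp
    · simp only [w1, w2]
      rw [div_mul_cancel₀ _ a4]
      ring

theorem homeo_T2 (i : Fin 3) : Nonempty (↥(Sph ∩ T2 i) ≃ₜ (Fin 3 → Circle)) := by
  have H := homt_rad (a := -32) (b := 6) (c := 11) (a' := -19) (b' := -9) (c' := 7) (by norm_num)
    (by norm_num) (by norm_num) (by norm_num) (by norm_num)
  have hc := homt_cst
  refine homt_main H i ?_
    (fun w => (((w (i + 1)).1 - shr (w (i + 2)).1 + 14 : ℝ) : ℂ) + (w (i + 2)).1 * Complex.I)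
    (fun w => (w (i + 1)).2 / 3) (by unfold shr; fun_prop) (by fun_prop)
    (fun w hw => T2_small hw) (fun w hw => ?_) (fun w hw w' hw' e1 e2 => ?_) (fun p t hp => ?_)
  · exact (isClosed_eq (by fun_prop) continuous_const).inter
      (isClosed_eq (by unfold f2 shr rect bump; fun_prop) continuous_const)
  · have h2 := hw.2
    unfold f2 at h2
    have e : ((-19 : ℝ) + -9) / 2 + ((w (i + 1)).1 - shr (w (i + 2)).1 + 14) =
        (w (i + 1)).1 - shr (w (i + 2)).1 := by ring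
    simp only [Complex.add_re, Complex.add_im, Complex.ofReal_re, Complex.ofReal_im, Complex.mul_re,
      Complex.mul_im, Complex.I_re, Complex.I_im, mul_zero, mul_one, sub_zero, add_zero, zero_add, e]
    linarith
  · have a1 : (w (i + 1)).1 - shr (w (i + 2)).1 = (w' (i + 1)).1 - shr (w' (i + 2)).1 := by
      simpa using congrArg Complex.re e1
    have a2 : (w (i + 2)).1 = (w' (i + 2)).1 := by simpa using congrArg Complex.im e1
    rw [a2] at a1
    exact ⟨Prod.ext (by linarith) (by linarith), Prod.ext a2 (hw.1.trans hw'.1.symm)⟩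
  · refine ⟨(p.re - 14 + shr p.im, 3 * t), (p.im, 0), fun w w1 w2 => ⟨⟨by rw [w2], ?_⟩, ?_, ?_⟩⟩
    · rw [w1, w2]
      unfold f2
      have e : ((-19 : ℝ) + -9) / 2 + p.re = p.re - 14 + shr p.im - shr p.im := by ring
      simp only [e] at hp
      linarith
    · rw [w1, w2]
      apply Complex.ext <;> simp
    · simp only [w1]
      ring

end Pool.Agent.MP_a61dd1_gt
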