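import Mathlib

/-! Explicit model of the ten tori in the 5-sphere (coordinates `z_j = (x_j, y_j)`). -/

namespace Pool.Agent.MP_a61dd1_gt

open Set Real

abbrev W := Fin 3 → ℝ × ℝ

/-- Smooth ramp: `0` on `(-∞,0]`, `t` on `[1,∞)`, strictly increasing on `[0,∞)`. -/
noncomputable def rp (t : ℝ) : ℝ := t * smoothTransition t

/-- Vanishes exactly on the rectangle `[a,b] × [-c,c]`. -/
noncomputable def rect (a b c s t : ℝ) : ℝ := rp (a - s) + rp (s - b) + rp (t - c) + rp (-t - c)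

noncomputable def bump (P : ℝ) : ℝ := rp (2 - P)

noncomputable def bA (z : ℝ × ℝ) : ℝ := bump (rect (-5) 5 5 z.1 z.2)

noncomputable def bB (z : ℝ × ℝ) : ℝ := bump (rect (-2) 4 0 z.1 z.2)

noncomputable def fU (j : Fin 3) (w : W) : ℝ :=
  (w j).2 ^ 2 + 25 * bA (w (j + 1)) + 25 * bB (w (j + 2)) - 25

noncomputable def kap (x : ℝ) : ℝ := 4 - 3 * smoothTransition (x + 3)

noncomputable def f1 (x u v : ℝ) : ℝ :=
  (v * kap x) ^ 2 + 64 * rect (-21) 2 9 x u + 64 * bump (rect (-4) (-2) 0 x u) - 64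

noncomputable def shr (u : ℝ) : ℝ := 9 * (smoothTransition (u - 3) + smoothTransition (-u - 3))

noncomputable def f2 (x y u : ℝ) : ℝ :=
  y ^ 2 + 9 * rect (-32) 6 11 (x - shr u) u + 9 * bump (rect (-19) (-9) 7 (x - shr u) u) - 9

def sq2 (z : ℝ × ℝ) : ℝ := z.1 ^ 2 + z.2 ^ 2

/-- The round sphere of radius 64. -/
def Sph : Set W := {w | sq2 (w 0) + sq2 (w 1) + sq2 (w 2) = 4096}

/-- The boundary of the cube `[-36,36]^6` (all norms here are sup norms). -/
def Cub : Set W := {w | ‖w‖ = 36}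

def T0 : Set W := {w | sq2 (w 0) = sq2 (w 1) ∧ sq2 (w 1) = sq2 (w 2)}

def TU (j : Fin 3) : Set W := {w | (w j).1 = 0 ∧ fU j w = 0}

def T1 (i : Fin 3) : Set W :=
  {w | (w (i + 1)).2 = 0 ∧ f1 (w (i + 1)).1 (w (i + 2)).1 (w (i + 2)).2 = 0}

def T2 (i : Fin 3) : Set W :=
  {w | (w (i + 2)).2 = 0 ∧ f2 (w (i + 1)).1 (w (i + 1)).2 (w (i + 2)).1 = 0}

/-- Agreement on the cores of radius 35. -/
def Near (w w' : W) : Prop := ∀ j, w j = w' j ∨ (1225 ≤ sq2 (w j) ∧ 1225 ≤ sq2 (w' j))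

lemma rp_of_nonpos {t : ℝ} (h : t ≤ 0) : rp t = 0 := by
  simp [rp, smoothTransition.zero_of_nonpos h]

lemma rp_of_one_le {t : ℝ} (h : 1 ≤ t) : rp t = t := by
  simp [rp, smoothTransition.one_of_one_le h]

lemma rp_nonneg (t : ℝ) : 0 ≤ rp t := by
  rcases le_total t 0 with h | h
  · rw [rp_of_nonpos h]
  · exact mul_nonneg h (smoothTransition.nonneg t)

lemma rp_pos {t : ℝ} (h : 0 < t) : 0 < rp t := mul_pos h (smoothTransition.pos_of_pos h)

lemma rp_lt {s t : ℝ} (ht : 0 < t) (h : s < t) : rp s < rp t := by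
  rcases le_total s 0 with hs | hs
  · rw [rp_of_nonpos hs]; exact rp_pos ht
  · calc rp s ≤ s * smoothTransition t :=
          mul_le_mul_of_nonneg_left (smoothTransition.monotone h.le) hs
      _ < rp t := mul_lt_mul_of_pos_right h (smoothTransition.pos_of_pos ht)

lemma rp_mono : Monotone rp := by
  intro s t h
  rcases le_or_gt t 0 with ht | ht
  · rw [rp_of_nonpos ht, rp_of_nonpos (h.trans ht)]
  · rcases h.eq_or_lt with rfl | h
    · exact le_rfl
    · exact (rp_lt ht h).le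

lemma le_one_of_rp_le {t : ℝ} (h : rp t ≤ 1) : t ≤ 1 := by
  by_contra h'
  push Not at h'
  rw [rp_of_one_le h'.le] at h
  linarith

lemma rp_eq_one {t : ℝ} : rp t = 1 ↔ t = 1 := by
  refine ⟨fun h => le_antisymm (le_one_of_rp_le h.le) ?_, fun h => by rw [h]; exact rp_of_one_le le_rfl⟩
  by_contra h'
  push Not at h'
  have := rp_lt one_pos h'
  rw [rp_of_one_le le_rfl] at this
  linarith

@[fun_prop]
lemma contDiff_rp {n : ℕ∞} : ContDiff ℝ n rp := contDiff_id.mul smoothTransition.contDiff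

@[fun_prop]
lemma continuous_rp : Continuous rp := (contDiff_rp (n := 0)).continuous

lemma deriv_rp_nonneg (t : ℝ) : 0 ≤ deriv rp t := rp_mono.deriv_nonneg

lemma deriv_rp_of_nonpos {t : ℝ} (h : t ≤ 0) : deriv rp t = 0 := by
  have : IsLocalMin rp t := Filter.Eventually.of_forall fun s => by
    rw [rp_of_nonpos h]; exact rp_nonneg s
  exact this.deriv_eq_zero

lemma deriv_rp_pos {t : ℝ} (h : 0 < t) : 0 < deriv rp t := by
  have hd : HasDerivAt smoothTransition (deriv smoothTransition t) t :=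
    ((smoothTransition.contDiff (n := 1)).differentiable (by simp) t).hasDerivAt
  have h1 : HasDerivAt rp (1 * smoothTransition t + t * deriv smoothTransition t) t :=
    (hasDerivAt_id t).mul hd
  rw [h1.deriv]
  have h2 : 0 ≤ deriv smoothTransition t := smoothTransition.monotone.deriv_nonneg
  have := smoothTransition.pos_of_pos h
  positivity

lemma rect_nonneg (a b c s t : ℝ) : 0 ≤ rect a b c s t := by
  unfold rect
  have := rp_nonneg (a - s); have := rp_nonneg (s - b); have := rp_nonneg (t - c)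
  have := rp_nonneg (-t - c)
  positivity

lemma bump_nonneg (P : ℝ) : 0 ≤ bump P := rp_nonneg _

lemma bump_of_two_le {P : ℝ} (h : 2 ≤ P) : bump P = 0 := rp_of_nonpos (by linarith)

lemma rect_le_one {a b c s t : ℝ} (h : rect a b c s t ≤ 1) :
    a - 1 ≤ s ∧ s ≤ b + 1 ∧ -c - 1 ≤ t ∧ t ≤ c + 1 := by
  unfold rect at h
  have h1 := rp_nonneg (a - s); have h2 := rp_nonneg (s - b); have h3 := rp_nonneg (t - c)
  have h4 := rp_nonneg (-t - c)
  have := le_one_of_rp_le (t := a - s) (by linarith)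
  have := le_one_of_rp_le (t := s - b) (by linarith)
  have := le_one_of_rp_le (t := t - c) (by linarith)
  have := le_one_of_rp_le (t := -t - c) (by linarith)
  refine ⟨?_, ?_, ?_, ?_⟩ <;> linarith

lemma two_le_rect {a b c s t : ℝ} (h : s ≤ a - 2 ∨ b + 2 ≤ s ∨ t ≤ -c - 2 ∨ c + 2 ≤ t) :
    2 ≤ rect a b c s t := by
  unfold rect
  have h1 := rp_nonneg (a - s); have h2 := rp_nonneg (s - b); have h3 := rp_nonneg (t - c)
  have h4 := rp_nonneg (-t - c)
  rcases h with h | h | h | h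
  · rw [rp_of_one_le (t := a - s) (by linarith)]; linarith
  · rw [rp_of_one_le (t := s - b) (by linarith)]; linarith
  · rw [rp_of_one_le (t := -t - c) (by linarith)]; linarith
  · rw [rp_of_one_le (t := t - c) (by linarith)]; linarith

lemma rect_eq_zero {a b c s t : ℝ} (h1 : a ≤ s) (h2 : s ≤ b) (h3 : -c ≤ t) (h4 : t ≤ c) :
    rect a b c s t = 0 := by
  unfold rect
  rw [rp_of_nonpos, rp_of_nonpos, rp_of_nonpos, rp_of_nonpos] <;> linarith

lemma bA_of_big {z : ℝ × ℝ} (h : 100 ≤ sq2 z) : bA z = 0 := by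
  refine bump_of_two_le (two_le_rect ?_)
  by_contra h'
  push Not at h'
  unfold sq2 at h
  nlinarith [h'.1, h'.2.1, h'.2.2.1, h'.2.2.2]

lemma bB_of_big {z : ℝ × ℝ} (h : 100 ≤ sq2 z) : bB z = 0 := by
  refine bump_of_two_le (two_le_rect ?_)
  by_contra h'
  push Not at h'
  unfold sq2 at h
  nlinarith [h'.1, h'.2.1, h'.2.2.1, h'.2.2.2]

lemma kap_ge (x : ℝ) : 1 ≤ kap x := by
  have := smoothTransition.le_one (x + 3)
  unfold kap; linarith

lemma shr_bounds (u : ℝ) : 0 ≤ shr u ∧ shr u ≤ 9 := by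
  have h1 := smoothTransition.nonneg (u - 3)
  have h2 := smoothTransition.nonneg (-u - 3)
  have h3 := smoothTransition.le_one (u - 3)
  have h4 := smoothTransition.le_one (-u - 3)
  unfold shr
  refine ⟨by positivity, ?_⟩
  rcases le_total u 0 with h | h
  · rw [smoothTransition.zero_of_nonpos (x := u - 3) (by linarith)]; linarith
  · rw [smoothTransition.zero_of_nonpos (x := -u - 3) (by linarith)]; linarith

lemma TU_small {j : Fin 3} {w : W} (h : w ∈ TU j) : sq2 (w j) ≤ 25 := by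
  obtain ⟨h1, h2⟩ := h
  have := bump_nonneg (rect (-5) 5 5 (w (j + 1)).1 (w (j + 1)).2)
  have := bump_nonneg (rect (-2) 4 0 (w (j + 2)).1 (w (j + 2)).2)
  unfold fU bA bB at h2
  unfold sq2; rw [h1]; linarith

lemma f1_bounds {x u v : ℝ} (h : f1 x u v = 0) :
    (-22 ≤ x ∧ x ≤ 3) ∧ (-10 ≤ u ∧ u ≤ 10) ∧ v ^ 2 ≤ 64 := by
  have h1 := bump_nonneg (rect (-4) (-2) 0 x u)
  have h2 := rect_nonneg (-21) 2 9 x u
  have h3 := kap_ge x
  unfold f1 at h
  have h4 := rect_le_one (a := -21) (b := 2) (c := 9) (s := x) (t := u)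
    (by nlinarith [sq_nonneg (v * kap x)])
  refine ⟨⟨by linarith [h4.1], by linarith [h4.2.1]⟩,
    ⟨by linarith [h4.2.2.1], by linarith [h4.2.2.2]⟩, ?_⟩
  have : v ^ 2 * 1 ≤ v ^ 2 * kap x ^ 2 := by gcongr; nlinarith
  nlinarith

lemma f2_bounds {x y u : ℝ} (h : f2 x y u = 0) :
    (-33 ≤ x ∧ x ≤ 16) ∧ (-12 ≤ u ∧ u ≤ 12) ∧ y ^ 2 ≤ 9 := by
  have h1 := bump_nonneg (rect (-19) (-9) 7 (x - shr u) u)
  have h2 := rect_nonneg (-32) 6 11 (x - shr u) u
  have h3 := shr_bounds u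
  unfold f2 at h
  have h4 := rect_le_one (a := -32) (b := 6) (c := 11) (s := x - shr u) (t := u)
    (by nlinarith [sq_nonneg y])
  exact ⟨⟨by linarith [h4.1], by linarith [h4.2.1]⟩,
    ⟨by linarith [h4.2.2.1], by linarith [h4.2.2.2]⟩, by linarith⟩

lemma T1_small {i : Fin 3} {w : W} (h : w ∈ T1 i) :
    sq2 (w (i + 1)) ≤ 1100 ∧ sq2 (w (i + 2)) ≤ 200 := by
  obtain ⟨h1, h2⟩ := h
  obtain ⟨⟨a, b⟩, ⟨c, d⟩, e⟩ := f1_bounds h2
  unfold sq2; rw [h1]; constructor <;> nlinarith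

lemma T2_small {i : Fin 3} {w : W} (h : w ∈ T2 i) :
    sq2 (w (i + 1)) ≤ 1100 ∧ sq2 (w (i + 2)) ≤ 200 := by
  obtain ⟨h1, h2⟩ := h
  obtain ⟨⟨a, b⟩, ⟨c, d⟩, e⟩ := f2_bounds h2
  unfold sq2; rw [h1]; constructor <;> nlinarith

lemma Sph_sum {w : W} (h : w ∈ Sph) (i : Fin 3) :
    sq2 (w i) + sq2 (w (i + 1)) + sq2 (w (i + 2)) = 4096 := by
  have h : sq2 (w 0) + sq2 (w 1) + sq2 (w 2) = 4096 := h
  fin_cases i <;> simp <;> linarith

end Pool.Agent.MP_a61dd1_gt
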