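import Pool.Agent.MP_a61dd1_gt.Model

/-! The round sphere `Sph` is a retract of the cube boundary `Cub` by maps that fix the cores.

Hints.  Write `r z = sqrt (sq2 z)`, `m w = max_j r (w j)`; on `Sph` one has `m w > 35`
because `3 * 35^2 < 4096`.  For `z ≠ 0` the ray through `z` meets the square `‖·‖ = 36` at euclidean
distance `R z = 36 * r z / ‖z‖ ≥ 36`.
* `Θ w j = w j` if `r (w j) ≤ 35`; otherwise the point on the ray of `w j` at euclidean distance
  `35 + τ * (R (w j) - 35)` with `τ = (r (w j) - 35) / (m w - 35) ∈ (0,1]`.  Continuous formula: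
  `Θ w j = (1 + max (r - 35) 0 * ((R' - 35) / (m - 35) - 1) / max r 35) • w j` with
  `R' = 36 * r / max ‖w j‖ 1`.  Then `‖Θ w j‖ ≤ 36` with equality iff `τ = 1`
  (if `r ≤ 35` then `‖w j‖ ≤ 35`).
* `Ψ w j`: put `τ j = max (r (w j) - 35) 0 / (R' (w j) - 35)` (use `max (R' - 35) 1` in the
  denominator), `a = ∑ τ j ^ 2 ≥ 1` on `Cub`, `b = 70 * ∑ τ j`, `c = ∑ (min (r (w j)) 35) ^ 2 - 4096 < 0`,
  `lam = (-b + sqrt (b^2 - 4 a c)) / (2 a) > 0`, and move `w j` along its ray to euclidean distance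
  `min r 35 + lam * τ j`:  `Ψ w j = ((min r 35 + lam * τ j) / r) • w j`, continuous form
  `(1 + (lam * τ j - max (r - 35) 0) / max r 35) • w j`.
* `Ψ (Θ w) = w`: the `τ j` of `Θ w` are the `τ j` used by `Θ`, and `lam = m w - 35` is the unique
  positive root of `a t^2 + b t + c`.
-/

namespace Pool.Agent.MP_a61dd1_gt

open Set

noncomputable def thR (z : ℝ × ℝ) : ℝ := √(sq2 z)
noncomputable def thP (z : ℝ × ℝ) : ℝ := max (thR z - 35) 0
noncomputable def thQ (z : ℝ × ℝ) : ℝ := min (thR z) 35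
noncomputable def thD (z : ℝ × ℝ) : ℝ := max (36 * thR z / max ‖z‖ 1 - 35) 1
noncomputable def thMv (z : ℝ × ℝ) (δ : ℝ) : ℝ × ℝ := (1 + (δ - thP z) / max (thR z) 35) • z
noncomputable def thM (w : W) : ℝ := max (max (thP (w 0)) (thP (w 1))) (thP (w 2))
noncomputable def thTau (z : ℝ × ℝ) : ℝ := thP z / thD z
noncomputable def thA (w : W) : ℝ := thTau (w 0) ^ 2 + thTau (w 1) ^ 2 + thTau (w 2) ^ 2
noncomputable def thB (w : W) : ℝ := 70 * (thTau (w 0) + thTau (w 1) + thTau (w 2))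
noncomputable def thC (w : W) : ℝ := thQ (w 0) ^ 2 + thQ (w 1) ^ 2 + thQ (w 2) ^ 2 - 4096
noncomputable def thL (w : W) : ℝ := (-thB w + √(thB w ^ 2 - 4 * thA w * thC w)) / (2 * thA w)
noncomputable def thTh (w : W) : W := fun j => thMv (w j) (thP (w j) * thD (w j) / thM w)
noncomputable def thPs (w : W) : W := fun j => thMv (w j) (thL w * thTau (w j))

lemma th_sq2_nonneg (z : ℝ × ℝ) : 0 ≤ sq2 z := by unfold sq2; positivity

lemma thR_nonneg (z : ℝ × ℝ) : 0 ≤ thR z := Real.sqrt_nonneg _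

lemma thR_sq (z : ℝ × ℝ) : thR z ^ 2 = sq2 z := Real.sq_sqrt (th_sq2_nonneg z)

lemma thP_nonneg (z : ℝ × ℝ) : 0 ≤ thP z := le_max_right _ _

lemma thD_ge (z : ℝ × ℝ) : 1 ≤ thD z := le_max_right _ _

lemma thQ_nonneg (z : ℝ × ℝ) : 0 ≤ thQ z := le_min (thR_nonneg z) (by norm_num)

lemma thQ_le (z : ℝ × ℝ) : thQ z ≤ 35 := min_le_right _ _

lemma thP_of_le {z : ℝ × ℝ} (h : thR z ≤ 35) : thP z = 0 := max_eq_right (by linarith)

lemma thP_of_ge {z : ℝ × ℝ} (h : 35 ≤ thR z) : thP z = thR z - 35 := max_eq_left (by linarith)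

lemma thTau_nonneg (z : ℝ × ℝ) : 0 ≤ thTau z :=
  div_nonneg (thP_nonneg z) (by linarith [thD_ge z])

lemma th_norm_le (z : ℝ × ℝ) : ‖z‖ ≤ thR z := by
  rw [Prod.norm_def, max_le_iff, Real.norm_eq_abs, Real.norm_eq_abs]
  constructor
  · exact Real.abs_le_sqrt (by unfold sq2; nlinarith [sq_nonneg z.2])
  · exact Real.abs_le_sqrt (by unfold sq2; nlinarith [sq_nonneg z.1])

lemma th_le_norm (z : ℝ × ℝ) : thR z ≤ 2 * ‖z‖ := by
  have h1 : |z.1| ≤ ‖z‖ := norm_fst_le z
  have h2 : |z.2| ≤ ‖z‖ := norm_snd_le z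
  have h3 := sq_le_sq' (by linarith [abs_nonneg z.1]) h1
  have h4 := sq_le_sq' (by linarith [abs_nonneg z.2]) h2
  rw [sq_abs] at h3 h4
  refine Real.sqrt_le_iff.2 ⟨by positivity, ?_⟩
  unfold sq2; nlinarith [sq_nonneg ‖z‖]

lemma thR_smul {s : ℝ} (hs : 0 ≤ s) (z : ℝ × ℝ) : thR (s • z) = s * thR z := by
  unfold thR
  rw [show sq2 (s • z) = s ^ 2 * sq2 z by simp [sq2]; ring, Real.sqrt_mul (sq_nonneg s),
    Real.sqrt_sq hs]

lemma thD_of_ge {z : ℝ × ℝ} (h : 35 ≤ thR z) : 1 ≤ ‖z‖ ∧ thD z = 36 * thR z / ‖z‖ - 35 := by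
  have h1 : 1 ≤ ‖z‖ := by linarith [th_le_norm z]
  refine ⟨h1, ?_⟩
  unfold thD
  rw [max_eq_left h1]
  refine max_eq_left ?_
  have : 36 ≤ 36 * thR z / ‖z‖ := by
    rw [le_div_iff₀ (by linarith)]; linarith [th_norm_le z]
  linarith

lemma thMv_self (z : ℝ × ℝ) : thMv z (thP z) = z := by simp [thMv]

lemma thMv_of_ge {z : ℝ × ℝ} (h : 35 ≤ thR z) (δ : ℝ) : thMv z δ = ((35 + δ) / thR z) • z := by
  unfold thMv
  rw [thP_of_ge h, max_eq_left h]
  congr 1
  have : thR z ≠ 0 := by linarith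
  field_simp; ring

lemma thMv_spec {z : ℝ × ℝ} {δ : ℝ} (h0 : 0 ≤ δ) (h1 : thP z = 0 → δ = 0) :
    thP (thMv z δ) = δ ∧ thD (thMv z δ) = thD z ∧ thQ (thMv z δ) = thQ z ∧
    sq2 (thMv z δ) = (thQ z + δ) ^ 2 ∧ (thQ z + δ) ^ 2 = thQ z ^ 2 + 70 * δ + δ ^ 2 ∧
    (z = thMv z δ ∨ (1225 ≤ sq2 z ∧ 1225 ≤ sq2 (thMv z δ))) ∧
    (‖thMv z δ‖ ≤ 36 ↔ δ ≤ thD z) ∧ (‖thMv z δ‖ = 36 ↔ δ = thD z) ∧
    thMv (thMv z δ) (thP z) = z := by
  rcases le_total (thR z) 35 with h | h
  · have hp := thP_of_le h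
    have hδ := h1 hp
    have e : thMv z δ = z := by rw [hδ, ← hp, thMv_self]
    have hn := th_norm_le z
    have hD := thD_ge z
    rw [e, hδ]
    refine ⟨hp, rfl, rfl, ?_, by ring, Or.inl rfl, ?_, ?_, thMv_self z⟩
    · rw [thQ, min_eq_left h, add_zero, thR_sq]
    · constructor <;> intro <;> linarith
    · constructor <;> intro <;> linarith
  · have hr : 0 < thR z := by linarith
    have hs : 0 < (35 + δ) / thR z := by positivity
    have eR : thR (thMv z δ) = 35 + δ := by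
      rw [thMv_of_ge h, thR_smul hs.le]; field_simp
    have eN : ‖thMv z δ‖ = (35 + δ) / thR z * ‖z‖ := by
      rw [thMv_of_ge h, norm_smul, Real.norm_of_nonneg hs.le]
    have h' : 35 ≤ thR (thMv z δ) := by linarith
    obtain ⟨n1, d1⟩ := thD_of_ge h
    have n0 : 0 < ‖z‖ := by linarith
    have eQ : thQ z = 35 := min_eq_right h
    have eD : (35 + thD z) / thR z * ‖z‖ = 36 := by rw [d1]; field_simp; ring
    have hk : 0 < ‖z‖ / thR z := by positivity
    have eN' : ‖thMv z δ‖ = 36 + (δ - thD z) * (‖z‖ / thR z) := by rw [eN, ← eD]; ring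
    refine ⟨by rw [thP_of_ge h', eR]; ring, ?_, by rw [eQ]; exact min_eq_right h', ?_,
      by rw [eQ]; ring, Or.inr ⟨?_, ?_⟩, ?_, ?_, ?_⟩
    · rw [(thD_of_ge h').2, d1, eR, eN]
      have : 35 + δ ≠ 0 := by linarith
      field_simp
    · rw [← thR_sq, eR, eQ]
    · rw [← thR_sq]; nlinarith
    · rw [← thR_sq]; nlinarith
    · rw [eN']
      constructor
      · intro h2
        by_contra h3
        nlinarith [mul_pos (sub_pos.2 (not_le.1 h3)) hk]
      · intro h2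
        nlinarith [mul_nonneg (sub_nonneg.2 h2) hk.le]
    · rw [eN']
      constructor
      · intro h2
        have : (δ - thD z) * (‖z‖ / thR z) = 0 := by linarith
        rcases mul_eq_zero.1 this with h3 | h3 <;> linarith
      · intro h2
        rw [h2]; ring
    · rw [thMv_of_ge h', eR, thMv_of_ge h, smul_smul, thP_of_ge h]
      have : 35 + δ ≠ 0 := by linarith
      rw [show (35 + (thR z - 35)) / (35 + δ) * ((35 + δ) / thR z) = 1 by field_simp; ring,
        one_smul]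

lemma th_self (z : ℝ × ℝ) : sq2 z = thQ z ^ 2 + 70 * thP z + thP z ^ 2 ∧
    (‖z‖ ≤ 36 ↔ thTau z ≤ 1) ∧ (‖z‖ = 36 ↔ thTau z = 1) := by
  have h := thMv_spec (thP_nonneg z) (z := z) id
  rw [thMv_self] at h
  have hD : 0 < thD z := by linarith [thD_ge z]
  refine ⟨h.2.2.2.1.trans h.2.2.2.2.1, ?_, ?_⟩
  · rw [h.2.2.2.2.2.2.1, thTau, div_le_one hD]
  · rw [h.2.2.2.2.2.2.2.1, thTau, div_eq_one_iff_eq hD.ne']

@[fun_prop] lemma continuous_thR : Continuous thR := by unfold thR sq2; fun_prop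

@[fun_prop] lemma continuous_thP : Continuous thP := by unfold thP; fun_prop

@[fun_prop] lemma continuous_thQ : Continuous thQ := by unfold thQ; fun_prop

@[fun_prop] lemma continuous_thD : Continuous thD := by
  unfold thD
  refine Continuous.max (Continuous.sub (Continuous.div (by fun_prop) (by fun_prop) fun z => ?_)
    continuous_const) continuous_const
  exact (lt_of_lt_of_le one_pos (le_max_right _ _)).ne'

@[fun_prop] lemma continuous_thTau : Continuous thTau :=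
  continuous_thP.div continuous_thD fun z => by linarith [thD_ge z]

lemma continuous_thMv : Continuous fun p : (ℝ × ℝ) × ℝ => thMv p.1 p.2 := by
  unfold thMv
  have : Continuous fun p : (ℝ × ℝ) × ℝ => (p.2 - thP p.1) / max (thR p.1) 35 :=
    Continuous.div (by fun_prop) (by fun_prop)
      fun z => (lt_of_lt_of_le (by norm_num) (le_max_right _ _)).ne'
  exact (continuous_const.add this).smul continuous_fst

lemma thP_le_M (w : W) (j : Fin 3) : thP (w j) ≤ thM w := by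
  unfold thM
  fin_cases j <;> simp

lemma thM_ex (w : W) : ∃ j, thP (w j) = thM w := by
  unfold thM
  rcases max_choice (max (thP (w 0)) (thP (w 1))) (thP (w 2)) with h | h
  · rcases max_choice (thP (w 0)) (thP (w 1)) with h' | h'
    · exact ⟨0, by rw [h, h']⟩
    · exact ⟨1, by rw [h, h']⟩
  · exact ⟨2, h.symm⟩

lemma thC_neg (w : W) : thC w < 0 := by
  have a0 := thQ_nonneg (w 0); have a1 := thQ_nonneg (w 1); have a2 := thQ_nonneg (w 2)
  have b0 := thQ_le (w 0); have b1 := thQ_le (w 1); have b2 := thQ_le (w 2)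
  unfold thC; nlinarith

lemma thM_pos {w : W} (h : w ∈ Sph) : 0 < thM w := by
  have h : sq2 (w 0) + sq2 (w 1) + sq2 (w 2) = 4096 := h
  by_contra h'
  have e : ∀ j, thP (w j) = 0 := fun j =>
    le_antisymm ((thP_le_M w j).trans (not_lt.1 h')) (thP_nonneg _)
  have := thC_neg w
  rw [(th_self (w 0)).1, (th_self (w 1)).1, (th_self (w 2)).1, e, e, e] at h
  unfold thC at this; linarith

lemma th_cub {w : W} (h : w ∈ Cub) : (∀ j, thTau (w j) ≤ 1) ∧ ∃ j, thTau (w j) = 1 := by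
  have h : ‖w‖ = 36 := h
  refine ⟨fun j => (th_self _).2.1.1 (h ▸ norm_le_pi_norm w j), ?_⟩
  by_contra h'
  push Not at h'
  have : ‖w‖ < 36 := (pi_norm_lt_iff (by norm_num)).2 fun j =>
    lt_of_le_of_ne (h ▸ norm_le_pi_norm w j) fun e => h' j ((th_self _).2.2.1 e)
  linarith

lemma thA_pos {w : W} (h : w ∈ Cub) : 0 < thA w := by
  obtain ⟨j, hj⟩ := (th_cub h).2
  unfold thA
  fin_cases j <;> simp only [Fin.zero_eta, Fin.mk_one, Fin.reduceFinMk] at hj <;> rw [hj] <;>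
    positivity

lemma thB_nonneg (w : W) : 0 ≤ thB w := by
  have a0 := thTau_nonneg (w 0); have a1 := thTau_nonneg (w 1); have a2 := thTau_nonneg (w 2)
  unfold thB; positivity

lemma th_root {a b c : ℝ} (ha : 0 < a) (_hb : 0 ≤ b) (hc : c < 0) :
    0 < (-b + √(b ^ 2 - 4 * a * c)) / (2 * a) ∧
    a * ((-b + √(b ^ 2 - 4 * a * c)) / (2 * a)) ^ 2 + b * ((-b + √(b ^ 2 - 4 * a * c)) / (2 * a)) +
      c = 0 := by
  have h1 : 0 < -(a * c) := by nlinarith
  have h2 : √(b ^ 2 - 4 * a * c) ^ 2 = b ^ 2 - 4 * a * c := Real.sq_sqrt (by nlinarith)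
  have h3 : b < √(b ^ 2 - 4 * a * c) := Real.lt_sqrt_of_sq_lt (by linarith)
  refine ⟨div_pos (by linarith) (by positivity), ?_⟩
  generalize √(b ^ 2 - 4 * a * c) = s at *
  field_simp
  linear_combination h2

lemma th_root_eq {a b c t : ℝ} (ha : 0 < a) (hb : 0 ≤ b) (ht : 0 < t)
    (h : a * t ^ 2 + b * t + c = 0) : (-b + √(b ^ 2 - 4 * a * c)) / (2 * a) = t := by
  rw [show b ^ 2 - 4 * a * c = (2 * a * t + b) ^ 2 by linear_combination -4 * a * h,
    Real.sqrt_sq (by positivity)]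
  field_simp; ring

lemma thTh_hyp {w : W} (h : w ∈ Sph) (j : Fin 3) : 0 ≤ thP (w j) * thD (w j) / thM w ∧
    (thP (w j) = 0 → thP (w j) * thD (w j) / thM w = 0) := by
  have := thM_pos h; have := thP_nonneg (w j); have := thD_ge (w j)
  exact ⟨by positivity, fun e => by simp [e]⟩

lemma thPs_hyp {w : W} (h : w ∈ Cub) (j : Fin 3) : 0 ≤ thL w * thTau (w j) ∧
    (thP (w j) = 0 → thL w * thTau (w j) = 0) :=
  ⟨mul_nonneg (th_root (thA_pos h) (thB_nonneg w) (thC_neg w)).1.le (thTau_nonneg _),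
    fun e => by simp [thTau, e]⟩

lemma thTh_norm {w : W} (h : w ∈ Sph) (j : Fin 3) :
    ‖thTh w j‖ ≤ 36 ∧ (‖thTh w j‖ = 36 ↔ thP (w j) = thM w) := by
  have s := thMv_spec (thTh_hyp h j).1 (thTh_hyp h j).2
  have hM := thM_pos h
  have hD : 0 < thD (w j) := by linarith [thD_ge (w j)]
  refine ⟨s.2.2.2.2.2.2.1.2 ?_, s.2.2.2.2.2.2.2.1.trans ?_⟩
  · rw [div_le_iff₀ hM, mul_comm]
    exact mul_le_mul_of_nonneg_left (thP_le_M w j) hD.le
  · rw [div_eq_iff hM.ne', mul_comm, mul_right_inj' hD.ne']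

lemma thTh_mem {w : W} (h : w ∈ Sph) : thTh w ∈ Cub := by
  obtain ⟨j, hj⟩ := thM_ex w
  refine le_antisymm ((pi_norm_le_iff_of_nonneg (by norm_num)).2 fun i => (thTh_norm h i).1) ?_
  rw [← (thTh_norm h j).2.2 hj]
  exact norm_le_pi_norm _ j

theorem exists_theta : ∃ Θ Ψ : W → W, ContinuousOn Θ Sph ∧ ContinuousOn Ψ Cub ∧
    MapsTo Θ Sph Cub ∧ MapsTo Ψ Cub Sph ∧ (∀ w ∈ Sph, Ψ (Θ w) = w) ∧
    (∀ w ∈ Sph, Near w (Θ w)) ∧ (∀ w ∈ Cub, Near w (Ψ w)) ∧
    (∀ w ∈ Sph, (∀ j, ‖Θ w j‖ = 36) → w ∈ T0) ∧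
    (∀ w ∈ Cub, Ψ w ∈ T0 → ∀ j, ‖w j‖ = 36) := by
  refine ⟨thTh, thPs, ?_, ?_, fun w h => thTh_mem h, fun w h => ?_, fun w h => ?_,
    fun w h j => (thMv_spec (thTh_hyp h j).1 (thTh_hyp h j).2).2.2.2.2.2.1,
    fun w h j => (thMv_spec (thPs_hyp h j).1 (thPs_hyp h j).2).2.2.2.2.2.1,
    fun w h h' => ?_, fun w h h' => ?_⟩
  · refine continuousOn_pi.2 fun j => continuous_thMv.comp_continuousOn
      (f := fun w : W => (w j, thP (w j) * thD (w j) / thM w)) ?_
    refine ContinuousOn.prodMk (by fun_prop) (ContinuousOn.div (by fun_prop) ?_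
      fun w h => (thM_pos h).ne')
    unfold thM; fun_prop
  · refine continuousOn_pi.2 fun j => continuous_thMv.comp_continuousOn
      (f := fun w : W => (w j, thL w * thTau (w j))) ?_
    refine ContinuousOn.prodMk (by fun_prop) (ContinuousOn.mul (ContinuousOn.div ?_ ?_
      fun w h => by linarith [thA_pos h]) (by fun_prop))
    · unfold thA thB thC; fun_prop
    · unfold thA; fun_prop
  · have s := fun j => thMv_spec (thPs_hyp h j).1 (thPs_hyp h j).2
    have e : ∀ j, sq2 (thPs w j) = thQ (w j) ^ 2 + 70 * (thL w * thTau (w j)) +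
        (thL w * thTau (w j)) ^ 2 := fun j => (s j).2.2.2.1.trans (s j).2.2.2.2.1
    have r : thA w * thL w ^ 2 + thB w * thL w + thC w = 0 :=
      (th_root (thA_pos h) (thB_nonneg w) (thC_neg w)).2
    change sq2 (thPs w 0) + sq2 (thPs w 1) + sq2 (thPs w 2) = 4096
    rw [e, e, e]
    unfold thA thB thC at r
    linear_combination r
  · have s := fun j => thMv_spec (thTh_hyp h j).1 (thTh_hyp h j).2
    have hM := thM_pos h
    have e1 : ∀ j, thTau (thTh w j) = thP (w j) / thM w := fun j => by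
      have hD : 0 < thD (w j) := by linarith [thD_ge (w j)]
      change thP (thMv _ _) / thD (thMv _ _) = _
      rw [(s j).1, (s j).2.1]; field_simp
    have e2 : ∀ j, thQ (thTh w j) = thQ (w j) := fun j => (s j).2.2.1
    have e3 : thL (thTh w) = thM w := by
      refine th_root_eq (thA_pos (thTh_mem h)) (thB_nonneg _) hM ?_
      have h : sq2 (w 0) + sq2 (w 1) + sq2 (w 2) = 4096 := h
      rw [(th_self (w 0)).1, (th_self (w 1)).1, (th_self (w 2)).1] at h
      unfold thA thB thC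
      simp only [e1, e2]
      field_simp
      linear_combination h
    funext j
    change thMv (thTh w j) (thL (thTh w) * thTau (thTh w j)) = w j
    rw [e3, e1, mul_div_cancel₀ _ hM.ne']
    exact (s j).2.2.2.2.2.2.2.2
  · have hM := thM_pos h
    have e : ∀ j, sq2 (w j) = (35 + thM w) ^ 2 := fun j => by
      have a1 := (thTh_norm h j).2.1 (h' j)
      have a2 : 35 ≤ thR (w j) := by
        by_contra a3
        rw [thP_of_le (not_le.1 a3).le] at a1
        linarith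
      rw [← thR_sq, ← a1, thP_of_ge a2]; ring
    exact ⟨by rw [e, e], by rw [e, e]⟩
  · have s := fun j => thMv_spec (thPs_hyp h j).1 (thPs_hyp h j).2
    have hL : 0 < thL w := (th_root (thA_pos h) (thB_nonneg w) (thC_neg w)).1
    obtain ⟨t1, j₀, t2⟩ := th_cub h
    have e0 : ∀ i j, sq2 (thPs w i) = sq2 (thPs w j) := by
      have a1 := h'.1; have a2 := h'.2
      intro i j
      fin_cases i <;> fin_cases j <;> simp only [Fin.zero_eta, Fin.mk_one, Fin.reduceFinMk] <;>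
        linarith
    have q0 : thQ (w j₀) = 35 := by
      refine min_eq_right ?_
      by_contra a3
      rw [thTau, thP_of_le (not_le.1 a3).le] at t2
      simp at t2
    intro j
    refine (th_self _).2.2.2 (le_antisymm (t1 j) ?_)
    have e1 : (thQ (w j₀) + thL w * thTau (w j₀)) ^ 2 = (thQ (w j) + thL w * thTau (w j)) ^ 2 :=
      (s j₀).2.2.2.1.symm.trans ((e0 j₀ j).trans (s j).2.2.2.1)
    have a4 := thQ_nonneg (w j)
    have a5 := (thPs_hyp h j).1
    rw [q0, t2, sq_eq_sq₀ (by linarith) (by linarith)] at e1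
    have a6 := thQ_le (w j)
    exact le_of_mul_le_mul_left (by linarith) hL

end Pool.Agent.MP_a61dd1_gt
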